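import Pool.Agent.H32.Orph

set_option autoImplicit false

open Pool.Agent.H32.Orph in
theorem Pool.Agent.Results.MP_642fbc_lc.Exponential.result :
    (∀ k : ℕ, 16 ≤ k → k % 2 = 1 → ∃ f : Fin k × Bool → Fin k × Bool → Fin k × Bool,
      (∃ u : Fin (k + 1) → Fin k × Bool, Orphan f u) ∧ ∀ l ≤ 2 ^ (k - 2), rho f l ≤ 1 / 2) ∧
    ∀ P : MvPolynomial (Fin 2) ℝ, ∃ (S : Type) (_ : Fintype S) (_ : Nonempty S)
      (f : S → S → S) (m : ℕ), IsLeast {l : ℕ | ∃ u : Fin l → S, Orphan f u} m ∧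
      ∀ l : ℕ, (l : ℝ) ≤ MvPolynomial.eval ![(Fintype.card S : ℝ), (m : ℝ)] P →
        rho f l ≤ 1 / 2 := by
  classical
  refine ⟨fun k h1 h2 => ⟨f, orphan h1 h2, rho_le h1⟩, fun P => ?_⟩
  obtain ⟨C, d, -, hC⟩ := poly P
  obtain ⟨k, h1, h2, h3⟩ := big C d
  have he : ∃ l, ∃ u : Fin l → Fin k × Bool, Orphan f u := ⟨_, orphan h1 h2⟩
  have hm : Nat.find he ≤ k + 1 := Nat.find_min' he (orphan h1 h2)
  have hk : (16 : ℝ) ≤ k := by exact_mod_cast h1
  refine ⟨Fin k × Bool, inferInstance, ⟨(⟨0, by omega⟩, true)⟩, f, Nat.find he,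
    ⟨Nat.find_spec he, fun l hl => Nat.find_min' he hl⟩, fun l hl => rho_le h1 l ?_⟩
  have := hl.trans ((le_abs_self _).trans ((hC (2 * k) _ (by linarith) fun i => ?_).trans h3))
  · exact_mod_cast this
  · have : (Nat.find he : ℝ) ≤ k + 1 := by exact_mod_cast hm
    fin_cases i
    · simp [abs_of_nonneg, mul_comm]
    · simp only [Fin.mk_one, Matrix.cons_val_one, Matrix.cons_val_zero, Nat.abs_cast]
      linarith
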